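import Pool.Agent.H72.CH.Targets
import Pool.Agent.H44.FB.Basics

/-!
# Fresh copies
-/

set_option autoImplicit false

namespace Pool.Agent.H17.CH

open Pool.Agent.H68.BP Pool.Agent.H58.SF Pool.Agent.H53.NR
open Pool.Agent.H57.AR (tp ty Ty)
open Pool.Agent.H44.KR (Amg TpOn)
open Pool.Agent.H44.FB
open Pool.Agent.H72.CH
open Function

theorem fre_injOn {N W : Type} {δ : Sig} {𝔻 : Str δ N} {A : Set W} {f g : W → N}
    (h : TpOn 𝔻 A f g) (hf : Set.InjOn f A) : Set.InjOn g A := fun a ha b hb hab =>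
  hf ha hb ((h.1 a ha b hb).2 hab)

/-- one step -/
theorem fre_step {N : Type} {δ : Sig} {𝔻 : Str δ N} (hA : Amg 𝔻) {W : Type} [Finite W]
    {Λ : Type} {s : Λ → Set W} (F : Finset N) {g : W → N} (hg : ∀ a, Set.InjOn g (s a)) (w0 : W) :
    ∃ v : N, v ∉ F ∧ (∀ w, g w ≠ v) ∧ ∀ g' : W → N, g' w0 = v → (∀ w, w ≠ w0 → g' w = g w) →
      ∀ a, TpOn 𝔻 (s a) g g' := by
  classical
  haveI := Fintype.ofFinite W
  obtain ⟨x', h1, h2, h3⟩ := hA W {w | ∃ a, w0 ∈ s a ∧ w ∈ s a ∧ w ≠ w0} g g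
    (F ∪ Finset.univ.image g) (tpo_refl _ g)
  have h4 : x' w0 ∉ F ∪ Finset.univ.image g := by
    intro h
    obtain ⟨b, ⟨a, ha0, hab, hb⟩, hxb⟩ := h3 w0 h
    have h5 : g w0 = g b := (eq_of_tp h1 w0 b).1 hxb
    exact hb (hg a ha0 hab h5).symm
  rw [Finset.mem_union, not_or] at h4
  refine ⟨x' w0, h4.1, fun w hw => h4.2 (Finset.mem_image.2 ⟨w, Finset.mem_univ _, hw⟩), ?_⟩
  intro g' hg0 hg1 a
  by_cases ha : w0 ∈ s a
  · refine tpo_congr (tpo_of_tp h1.symm (s a)) (fun _ _ => rfl) ?_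
    intro w hw
    by_cases hww : w = w0
    · rw [hww, hg0]
    · rw [hg1 w hww]
      exact (h2 w ⟨a, ha, hw, hww⟩).symm
  · refine tpo_congr (tpo_refl (s a) g) (fun _ _ => rfl) ?_
    intro w hw
    exact hg1 w fun h => ha (h ▸ hw)

theorem pf_FRE : T_FRE := by
  classical
  intro N δ 𝔻 hA W _ A f Λ s F hs hfA
  haveI := Fintype.ofFinite W
  have main : ∀ T : Finset W, ∃ g : W → N, (∀ w, w ∉ T → g w = f w) ∧ (∀ w ∈ T, g w ∉ F) ∧
      (∀ a, TpOn 𝔻 (s a) f g) ∧ ∀ w ∈ T, ∀ w', w' ≠ w → g w' ≠ g w := by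
    intro T
    induction T using Finset.induction_on with
    | empty =>
      exact ⟨f, fun _ _ => rfl, by simp, fun a => tpo_refl _ f, by simp⟩
    | insert w0 T hw0 ih =>
      obtain ⟨g, h1, h2, h3, h4⟩ := ih
      obtain ⟨v, hv1, hv2, hv3⟩ := fre_step hA F (fun a => fre_injOn (h3 a) (hs a)) w0
      have e0 : update g w0 v w0 = v := update_self w0 v g
      have e1 : ∀ w, w ≠ w0 → update g w0 v w = g w := fun w hw => update_of_ne hw v g
      refine ⟨update g w0 v, ?_, ?_, ?_, ?_⟩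
      · intro w hw
        rw [Finset.mem_insert, not_or] at hw
        rw [e1 w hw.1, h1 w hw.2]
      · intro w hw
        by_cases hww : w = w0
        · rw [hww, e0]
          exact hv1
        · rw [e1 w hww]
          exact h2 w (Finset.mem_of_mem_insert_of_ne hw hww)
      · intro a
        exact tpo_trans (h3 a) (hv3 _ e0 e1 a)
      · intro w hw w' hw'
        by_cases hww : w = w0
        · rw [hww] at hw' ⊢
          rw [e0, e1 w' hw']
          exact hv2 w'
        · have hwT := Finset.mem_of_mem_insert_of_ne hw hww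
          rw [e1 w hww]
          by_cases hww' : w' = w0
          · rw [hww', e0]
            exact (hv2 w).symm
          · rw [e1 w' hww']
            exact h4 w hwT w' hw'
  obtain ⟨g, h1, h2, h3, h4⟩ := main (Finset.univ.filter fun w => w ∉ A)
  have hmem : ∀ w, w ∉ A → w ∈ Finset.univ.filter fun w => w ∉ A := fun w hw =>
    Finset.mem_filter.2 ⟨Finset.mem_univ _, hw⟩
  have hnot : ∀ w, w ∈ A → w ∉ Finset.univ.filter fun w => w ∉ A := fun w hw h =>
    (Finset.mem_filter.1 h).2 hw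
  refine ⟨g, ?_, fun w hw => h1 w (hnot w hw), fun w hw => h2 w (hmem w hw), h3⟩
  intro w w' hww
  by_contra hne
  by_cases hw : w ∈ A
  · by_cases hw' : w' ∈ A
    · rw [h1 w (hnot w hw), h1 w' (hnot w' hw')] at hww
      exact hne (hfA hw hw' hww)
    · exact h4 w' (hmem w' hw') w hne hww
  · exact h4 w (hmem w hw) w' (Ne.symm hne) hww.symm

end Pool.Agent.H17.CH
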