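import Pool.Agent.H32.CH.Targets
import Pool.Agent.H57.SC.All

/-! MP_aaa807_co, module FSW: Fleischner-Stiebitz for classes inside V -/

set_option autoImplicit false

namespace Pool.Agent.H17.CH.FSW

open Finset
open Pool.Agent.H32.CH
open scoped Classical

theorem pf_FSW : T_FSW := by
  intro V I _ _ F w hdeg hpeel hcard hdis
  let W : Type := {v : V // ∃ i, v ∈ w i}
  let t : W → I := fun v => v.2.choose
  have ht : ∀ v : W, v.1 ∈ w (t v) := fun v => v.2.choose_spec
  have huniq : ∀ (v : V) (i j : I), v ∈ w i → v ∈ w j → i = j := by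
    intro v i j hi hj
    by_contra hij
    exact (disjoint_left.1 (hdis i j hij)) hi hj
  have htw : ∀ (v : W) (i : I), t v = i ↔ v.1 ∈ w i := by
    intro v i
    constructor
    · rintro rfl
      exact ht v
    · intro h
      exact huniq v.1 _ _ (ht v) h
  let F' : SimpleGraph W := F.comap Subtype.val
  let emb : W ↪ V := ⟨Subtype.val, Subtype.val_injective⟩
  -- neighbours in an image
  have himg : ∀ (X : Finset W) (v : W), (X.filter (F'.Adj v)).card = dg F (X.map emb) v.1 := by
    intro X v
    unfold dg nb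
    rw [← card_map emb]
    congr 1
    ext y
    simp only [mem_map, mem_filter]
    constructor
    · rintro ⟨z, ⟨hz, hvz⟩, rfl⟩
      exact ⟨⟨z, hz, rfl⟩, hvz⟩
    · rintro ⟨⟨z, hz, rfl⟩, hvz⟩
      exact ⟨z, ⟨hz, hvz⟩, rfl⟩
  obtain ⟨c, hc1, hc2⟩ := Pool.Agent.H57.SC.fs57 W I F' t
    (by
      intro i
      rw [← hcard i, ← card_map emb]
      congr 1
      ext y
      simp only [mem_map, mem_filter, mem_univ, true_and]
      constructor
      · rintro ⟨z, hz, rfl⟩
        exact (htw z i).1 hz
      · intro hy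
        exact ⟨⟨y, i, hy⟩, (htw ⟨y, i, hy⟩ i).2 hy, rfl⟩)
    (by
      intro v
      have h1 : F'.degree v = (univ.filter (F'.Adj v)).card := by
        rw [← SimpleGraph.card_neighborFinset_eq_degree, SimpleGraph.neighborFinset_eq_filter]
      rw [h1, himg]
      exact (dg_mono (subset_univ _) _).trans (hdeg v.1))
    (by
      intro X hX
      obtain ⟨v, hv, hv1⟩ := hpeel (X.map emb) (hX.map)
      obtain ⟨z, hz, rfl⟩ := mem_map.1 hv
      exact ⟨z, hz, by rw [himg]; exact hv1⟩)
  refine ⟨univ.filter (fun v : V => ∃ h : ∃ i, v ∈ w i, c ⟨v, h⟩ = 0), ?_, ?_⟩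
  · intro i
    -- the colouring is injective on the class, so it is bijective
    have hinj : Set.InjOn (fun v : W => c v) {v : W | t v = i} := by
      intro u hu v hv huv
      exact hc2 u v ((show t u = i from hu).trans (show t v = i from hv).symm) huv
    have hcls : (univ.filter (fun v : W => t v = i)).card = 3 := by
      rw [← hcard i, ← card_map emb]
      congr 1
      ext y
      simp only [mem_map, mem_filter, mem_univ, true_and]
      constructor
      · rintro ⟨z, hz, rfl⟩
        exact (htw z i).1 hz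
      · intro hy
        exact ⟨⟨y, i, hy⟩, (htw ⟨y, i, hy⟩ i).2 hy, rfl⟩
    have himgc : (univ.filter (fun v : W => t v = i)).image c = univ := by
      apply eq_univ_of_card
      rw [card_image_of_injOn, hcls, Fintype.card_fin]
      intro u hu v hv huv
      have hu' : t u = i := by simpa using hu
      have hv' : t v = i := by simpa using hv
      exact hc2 u v (hu'.trans hv'.symm) huv
    have h0 : (0 : Fin 3) ∈ (univ.filter (fun v : W => t v = i)).image c := by
      rw [himgc]; exact mem_univ _
    obtain ⟨z, hz, hz0⟩ := mem_image.1 h0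
    have hzi : t z = i := by simpa using hz
    rw [card_eq_one]
    refine ⟨z.1, ?_⟩
    ext y
    simp only [mem_inter, mem_filter, mem_univ, true_and, mem_singleton]
    constructor
    · rintro ⟨⟨h, hy0⟩, hyi⟩
      have h2 : t ⟨y, h⟩ = i := (htw ⟨y, h⟩ i).2 hyi
      have h3 := hc2 ⟨y, h⟩ z (h2.trans hzi.symm) (hy0.trans hz0.symm)
      exact congrArg Subtype.val h3
    · rintro rfl
      exact ⟨⟨z.2, hz0⟩, (htw z i).1 hzi⟩
  · intro x hx y hy hxy
    simp only [mem_filter, mem_univ, true_and] at hx hy
    obtain ⟨hx1, hx2⟩ := hx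
    obtain ⟨hy1, hy2⟩ := hy
    exact hc1 ⟨x, hx1⟩ ⟨y, hy1⟩ hxy (hx2.trans hy2.symm)

end Pool.Agent.H17.CH.FSW
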