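import Pool.Agent.H32.CH.Targets

/-! MP_aaa807_co, module N7: problematic components have at least 13 vertices -/

set_option autoImplicit false

namespace Pool.Agent.H17.CH.N7

open Finset
open Pool.Agent.H32.CH
open scoped Classical

theorem pf_N7 (h1 : T_ENC) (h4 : T_DC) : T_N7 := by
  intro V _ G A Z h7 hP
  obtain ⟨hC, hdeg, hmod⟩ := hP
  obtain ⟨x, hx⟩ := hC.2.1.1
  have hdZ : ∀ y ∈ Z, dg G Z y = 2 := by
    intro y hy
    rw [← h4 V G A Z y hC hy]
    exact hdeg y hy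
  obtain ⟨h3, f, hf, -, hadj⟩ := h1 V G Z x hC.2.1 hdZ hx
  by_contra hlt
  have h7c : Z.card = 7 := by omega
  have hstep : ∀ i, i + 1 < 7 → G.Adj (f i) (f (i + 1)) := by
    intro i hi
    exact hf.2.2.1 i (by omega)
  rw [h7c] at hadj
  exact h7 (f 0) (f 1) (f 2) (f 3) (f 4) (f 5) (f 6) (hstep 0 (by norm_num))
    (hstep 1 (by norm_num)) (hstep 2 (by norm_num)) (hstep 3 (by norm_num))
    (hstep 4 (by norm_num)) (hstep 5 (by norm_num)) hadj.symm

end Pool.Agent.H17.CH.N7
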