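import Pool.Agent.H72.CH.Targets2
import Pool.Agent.H57.CN.Basics
import Pool.Agent.H44.FB.Basics
import Pool.Agent.H54.GM.PWG

/-!
# Chains of equivalence relations, row OLS: Olšák polymorphisms modulo levels
-/

set_option autoImplicit false
set_option linter.unusedVariables false

namespace Pool.Agent.H17.CH

open Pool.Agent.H68.BP Pool.Agent.H58.SF Pool.Agent.H53.NR
open Pool.Agent.H57.AR (tp ty Ty)
open Pool.Agent.H44.KR (Tyi TpOn)
open Pool.Agent.H44.FB (CptC LocP tpo_comp tyi_on)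
open Pool.Agent.H57.CN (lv_tp)
open Pool.Agent.H72.CH
open Function

variable {V : Type} {ρ σ : Sig}

theorem ols_fin (𝔹 : Str ρ V) (m : ℕ) (lv : V → V → ℕ) (𝔸 : Str σ V) (hV : HV 𝔹 m lv)
    (hO : Oligo 𝔸) (hK : ¬ PPConstructsK3 𝔸) (Y : Finset (Fin 6 → V)) :
    ∃ F : (Fin 6 → V) → V, LocP 𝔸 Y F ∧ ∀ (r : Fin 3) (x y x' y' : V),
      pat r x y ∈ Y → pat r x' y' ∈ Y → pat 0 x y ∈ Y → pat 0 x' y' ∈ Y →
      lv (F (pat r x y)) (F (pat r x' y')) = lv (F (pat 0 x y)) (F (pat 0 x' y')) := by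
  classical
  obtain ⟨v₀⟩ := hV.ne
  haveI : Countable V := hV.cnt
  let Y' : Finset (Fin 6 → V) := insert (fun _ => v₀) Y
  let B : Type := {w : Fin 6 → V // w ∈ Y'}
  haveI : Nonempty B := ⟨⟨fun _ => v₀, Finset.mem_insert_self _ _⟩⟩
  haveI : Finite B := inferInstance
  obtain ⟨h, h1, h2⟩ := Pool.Agent.H54.GM.pf_PWG σ V 𝔸 hV.cnt hV.ne hO hK B 2 (by norm_num)
    (Fin (m + 1)) (fun P => ⟨lv (P 0) (P 1), Nat.lt_succ_of_le (hV.lev.pl.le _ _)⟩)
  let 𝕎 : Str σ B := fun l z => ∀ c : Fin 6, 𝔸 l (fun i => (z i).1 c)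
  obtain ⟨x, hx1, hx2⟩ := h1 𝕎 (fun c w => w.1 c) (fun c l z hz => hz c)
  let F : (Fin 6 → V) → V := fun w => if hw : w ∈ Y' then x ⟨w, hw⟩ else v₀
  have hF : ∀ w (hw : w ∈ Y'), F w = x ⟨w, hw⟩ := fun w hw => dif_pos hw
  have hsub : ∀ w, w ∈ Y → w ∈ Y' := fun w hw => Finset.mem_insert_of_mem hw
  refine ⟨F, ?_, ?_⟩
  · intro l z hz hp
    have h3 : (fun i => F (z i)) = fun i => x ⟨z i, hsub _ (hz i)⟩ :=
      funext fun i => hF _ (hsub _ (hz i))
    rw [h3]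
    exact hx1 l (fun i => ⟨z i, hsub _ (hz i)⟩) hp
  · have key : ∀ w w' (hw : w ∈ Y') (hw' : w' ∈ Y'),
        (lv (F w) (F w')) = (h (fun c v => (![w, w'] v) c)).1 := by
      intro w w' hw hw'
      have h4 := hx2 ![⟨w, hw⟩, ⟨w', hw'⟩]
      have h5 := congrArg Fin.val h4
      have h6 : (fun (c : Fin 6) (v : Fin 2) =>
          ((![⟨w, hw⟩, ⟨w', hw'⟩] : Fin 2 → B) v).1 c) = fun c v => (![w, w'] v) c := by
        funext c v
        fin_cases v <;> rfl
      rw [hF w hw, hF w' hw']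
      rw [← h6]
      exact h5
    intro r a b a' b' hr1 hr2 h01 h02
    have h7 : ∀ s : Fin 3, (fun (c : Fin 6) (v : Fin 2) => (![pat s a b, pat s a' b'] v) c) =
        pat s (![a, a'] : Fin 2 → V) (![b, b'] : Fin 2 → V) := by
      intro s
      funext c v
      fin_cases v
      · have := pat_map (fun P : Fin 2 → V => P 0) s (![a, a'] : Fin 2 → V) (![b, b'] : Fin 2 → V) c
        exact this.symm
      · have := pat_map (fun P : Fin 2 → V => P 1) s (![a, a'] : Fin 2 → V) (![b, b'] : Fin 2 → V) c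
        exact this.symm
    rw [key _ _ (hsub _ hr1) (hsub _ hr2), key _ _ (hsub _ h01) (hsub _ h02), h7 r, h7 0,
      h2 r]

theorem pf_OLS : T_OLS := by
  classical
  intro V ρ σ 𝔹 m lv 𝔸 hV hT hC hO hK
  haveI : Countable V := hV.cnt
  obtain ⟨v₀⟩ := hV.ne
  obtain ⟨f, -, hf⟩ := hC (Fin 6 → V) ∅ (fun _ => v₀)
    (fun Y F => LocP 𝔸 Y F ∧ ∀ (r : Fin 3) (x y x' y' : V),
      pat r x y ∈ Y → pat r x' y' ∈ Y → pat 0 x y ∈ Y → pat 0 x' y' ∈ Y →
      lv (F (pat r x y)) (F (pat r x' y')) = lv (F (pat 0 x y)) (F (pat 0 x' y')))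
    (by
      intro Y
      obtain ⟨F, hF⟩ := ols_fin 𝔹 m lv 𝔸 hV hO hK Y
      exact ⟨F, hF, fun x hx => absurd hx (Finset.notMem_empty x)⟩)
    (by
      rintro Y Y' F hY ⟨h1, h2⟩
      exact ⟨fun l z hz hp => h1 l z (fun i => hY (hz i)) hp,
        fun r x y x' y' a b c d => h2 r x y x' y' (hY a) (hY b) (hY c) (hY d)⟩)
    (by
      rintro Y F F' ⟨h1, h2⟩ hFF
      have h3 : ∀ w w', w ∈ Y → w' ∈ Y → lv (F w) (F w') = lv (F' w) (F' w') := by
        intro w w' hw hw'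
        have h4 := tpo_comp hFF (![w, w'] : Fin 2 → (Fin 6 → V)) (by
          intro i
          fin_cases i
          · exact hw
          · exact hw')
        exact lv_tp hV h4 0 1
      refine ⟨fun l z hz hp => tyi_on hT hFF l z hz (h1 l z hz hp), ?_⟩
      intro r x y x' y' a b c d
      rw [← h3 _ _ a b, ← h3 _ _ c d]
      exact h2 r x y x' y' a b c d)
  refine ⟨f, ?_, ?_⟩
  · intro l x hx
    exact (hf (Finset.univ.image fun k => fun i => x i k)).1 l (fun k i => x i k)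
      (fun k => Finset.mem_image_of_mem _ (Finset.mem_univ k)) hx
  · intro r x y x' y'
    exact (hf {pat r x y, pat r x' y', pat 0 x y, pat 0 x' y'}).2 r x y x' y'
      (by simp) (by simp) (by simp) (by simp)

end Pool.Agent.H17.CH
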